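import Mathlib

/-!
# Matching two finite sets of numbers
-/

set_option autoImplicit false

namespace Pool.Agent.TH49.GT

open Finset

/-- If for every `t` there are at least as many elements above `t` in `S'` as in `S`, and the two
sets have the same size, then there is a bijection from `S'` onto `S` which does not increase. -/
theorem match_le : ∀ (k : ℕ) (S S' : Finset ℕ), S.card = k → S'.card = k →
    (∀ t, (S.filter (t < ·)).card ≤ (S'.filter (t < ·)).card) →
    ∃ φ : ℕ → ℕ, (∀ u ∈ S', φ u ∈ S ∧ φ u ≤ u) ∧
      (∀ u ∈ S', ∀ v ∈ S', φ u = φ v → u = v) ∧ ∀ s ∈ S, ∃ u ∈ S', φ u = s := by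
  classical
  intro k
  induction k with
  | zero =>
    intro S S' h1 h2 _
    rw [card_eq_zero] at h1 h2
    subst h1 h2
    exact ⟨id, by simp, by simp, by simp⟩
  | succ k ih =>
    intro S S' h1 h2 h
    have hne : S.Nonempty := card_pos.1 (by omega)
    have hne' : S'.Nonempty := card_pos.1 (by omega)
    set a := S.max' hne with ha
    set b := S'.max' hne' with hb
    have haS : a ∈ S := S.max'_mem hne
    have hbS : b ∈ S' := S'.max'_mem hne'
    have hamax : ∀ x ∈ S, x ≤ a := fun x hx => S.le_max' x hx
    have hbmax : ∀ x ∈ S', x ≤ b := fun x hx => S'.le_max' x hx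
    have hab : a ≤ b := by
      by_contra hlt
      push Not at hlt
      have h3 := h b
      have h4 : (S'.filter (b < ·)) = ∅ := by
        rw [filter_eq_empty_iff]
        intro x hx
        have := hbmax x hx
        omega
      rw [h4, card_empty] at h3
      have h5 : a ∈ S.filter (b < ·) := by simp [haS, hlt]
      have := card_pos.2 ⟨a, h5⟩
      omega
    obtain ⟨φ, p1, p2, p3⟩ := ih (S.erase a) (S'.erase b) (by rw [card_erase_of_mem haS]; omega)
      (by rw [card_erase_of_mem hbS]; omega) (by
        intro t
        by_cases hta : t < a
        · rw [filter_erase, filter_erase, card_erase_of_mem (by simp [haS, hta]),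
            card_erase_of_mem (by simp [hbS]; omega)]
          have := h t
          omega
        · have h4 : ((S.erase a).filter (t < ·)) = ∅ := by
            rw [filter_eq_empty_iff]
            intro x hx
            have := hamax x (mem_of_mem_erase hx)
            omega
          rw [h4, card_empty]
          exact Nat.zero_le _)
    refine ⟨Function.update φ b a, ?_, ?_, ?_⟩
    · intro u hu
      by_cases hub : u = b
      · subst hub
        simp only [Function.update_self]
        exact ⟨haS, hab⟩
      · rw [Function.update_of_ne hub]
        have := p1 u (mem_erase.2 ⟨hub, hu⟩)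
        exact ⟨mem_of_mem_erase this.1, this.2⟩
    · intro u hu v hv huv
      by_cases hub : u = b
      · by_cases hvb : v = b
        · rw [hub, hvb]
        · rw [hub, Function.update_self, Function.update_of_ne hvb] at huv
          have := (mem_erase.1 (p1 v (mem_erase.2 ⟨hvb, hv⟩)).1).1
          exact absurd huv.symm this
      · by_cases hvb : v = b
        · rw [hvb, Function.update_self, Function.update_of_ne hub] at huv
          have := (mem_erase.1 (p1 u (mem_erase.2 ⟨hub, hu⟩)).1).1
          exact absurd huv this
        · rw [Function.update_of_ne hub, Function.update_of_ne hvb] at huv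
          exact p2 u (mem_erase.2 ⟨hub, hu⟩) v (mem_erase.2 ⟨hvb, hv⟩) huv
    · intro s hs
      by_cases hsa : s = a
      · exact ⟨b, hbS, by rw [Function.update_self, hsa]⟩
      · obtain ⟨u, hu, hus⟩ := p3 s (mem_erase.2 ⟨hsa, hs⟩)
        rw [mem_erase] at hu
        exact ⟨u, hu.2, by rw [Function.update_of_ne hu.1, hus]⟩

end Pool.Agent.TH49.GT
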